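import Pool.Agent.E8helper19.PM.Stm

/-!
Project PM: assembly (S_MAIN).
-/

set_option autoImplicit false
open MeasureTheory Filter Topology Set
open scoped ContDiff ENNReal Real InnerProductSpace

namespace Pool.Agent.E8helper19.PM

noncomputable section

lemma pd_smul {c : ℝ} (hc : c ≠ 0) (j : Fin 3) (f : E → ℂ) : pd j (c • f) = c • pd j f := by
  funext y
  let _ := invertibleOfNonzero hc
  simp only [pd, Pi.smul_apply]
  rw [fderiv_const_smul_of_invertible c]
  rfl

lemma gr_smul {c : ℝ} (hc : c ≠ 0) (f : E → ℂ) (y : E) : gr (c • f) y = c • gr f y := by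
  simp only [gr]
  ext j
  show pd j (c • f) y = c • pd j f y
  rw [pd_smul hc]; rfl

lemma lap_smul {c : ℝ} (hc : c ≠ 0) (f : E → ℂ) (y : E) : lap (c • f) y = c • lap f y := by
  simp only [lap, Finset.smul_sum]
  refine Finset.sum_congr rfl fun j _ => ?_
  rw [pd_smul hc, pd_smul hc]; rfl

lemma H1_smul {c : ℝ} (hc : c ≠ 0) (U : Set E) (f : E → ℂ) : H1 U (c • f) = c ^ 2 * H1 U f := by
  rw [H1, H1, ← integral_const_mul]
  refine integral_congr_ae (ae_of_all _ fun y => ?_)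
  simp only [gr_smul hc, Pi.smul_apply, norm_smul, mul_pow, Real.norm_eq_abs, sq_abs]
  ring

lemma form_smul (c k : ℝ) (U : Set E) (p : E → ℂ) (gp : E → C3) (q : E → ℂ) :
    form k U (c • p) (c • gp) q = c * form k U p gp q := by
  rw [form, form, ← integral_const_mul]
  refine integral_congr_ae (ae_of_all _ fun y => ?_)
  simp only [Pi.smul_apply, inner_smul_right_eq_smul, Complex.real_smul]
  ring

lemma Helm.smul {k c : ℝ} (hc : c ≠ 0) {Ω : Set E} {v : E → ℂ} (h : Helm k Ω v) :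
    Helm k Ω (c • v) := by
  refine ⟨h.smooth.const_smul c, fun y hy => ?_, ?_⟩
  · rw [lap_smul hc, h.eq y hy, Pi.smul_apply, Complex.real_smul, Complex.real_smul]; ring
  · refine (h.fin.const_mul (c ^ 2)).congr (ae_of_all _ fun y => ?_)
    simp only [gr_smul hc, Pi.smul_apply, norm_smul, mul_pow, Real.norm_eq_abs, sq_abs]
    ring

lemma supp_smul_sub (c : ℝ) (f : E → ℂ) : Function.support (c • f) ⊆ Function.support f := by
  intro x hx
  rw [Function.mem_support] at *
  intro h0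
  exact hx (by simp [h0])

lemma Tst.smul {c : ℝ} {Ω : Set E} {f : E → ℂ} (h : Tst Ω f) : Tst Ω (c • f) :=
  ⟨h.smooth.const_smul c, h.cpt.mono (supp_smul_sub c f),
    (closure_mono (supp_smul_sub c f)).trans h.supp⟩

lemma Van.smul {c : ℝ} (hc : c ≠ 0) {Ω D : Set E} {w : E → ℂ} {g : E → C3} (h : Van Ω D w g) :
    Van Ω D (c • w) (c • g) := by
  refine ⟨h.w2.const_smul c, h.g2.const_smul c, fun ε hε => ?_⟩
  obtain ⟨f, hf, hf2⟩ := h.lim (ε / c ^ 2) (by positivity)
  refine ⟨c • f, hf.smul, ?_⟩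
  have e : ∫ y in Ω \ closure D, (‖(c • w) y - (c • f) y‖ ^ 2 + ‖(c • g) y - gr (c • f) y‖ ^ 2) =
      c ^ 2 * ∫ y in Ω \ closure D, (‖w y - f y‖ ^ 2 + ‖g y - gr f y‖ ^ 2) := by
    rw [← integral_const_mul]
    refine integral_congr_ae (ae_of_all _ fun y => ?_)
    simp only [gr_smul hc, Pi.smul_apply, ← smul_sub, norm_smul, mul_pow, Real.norm_eq_abs, sq_abs]
    ring
  rw [e]
  have := mul_lt_mul_of_pos_left hf2 (by positivity : 0 < c ^ 2)
  rwa [mul_div_cancel₀ _ (by positivity : c ^ 2 ≠ 0)] at this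

lemma measurable_gr {Ω : Set E} {f : E → ℂ} (hΩ : IsOpen Ω) (hf : ContDiffOn ℝ ∞ f Ω) :
    ContinuousOn (gr f) Ω := by
  have h1 : ContinuousOn (fderiv ℝ f) Ω := hf.continuousOn_fderiv_of_isOpen hΩ (by simp)
  have h2 : ∀ j, ContinuousOn (fun y => pd j f y) Ω := fun j => h1.clm_apply continuousOn_const
  have h3 : ContinuousOn (fun y => fun j => pd j f y) Ω := continuousOn_pi.2 h2
  exact (PiLp.continuous_toLp 2 (fun _ : Fin 3 => ℂ)).comp_continuousOn h3

/-- the energy on a subset is finite -/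
lemma Helm.memv {k : ℝ} {Ω U : Set E} {v : E → ℂ} (h : Helm k Ω v) (hU : U ⊆ Ω)
    (mU : MeasurableSet U) : MemLp v 2 (volume.restrict U) := by
  have m : AEStronglyMeasurable v (volume.restrict U) :=
    (h.smooth.continuousOn.mono hU).aestronglyMeasurable mU
  rw [memLp_two_iff_integrable_sq_norm m]
  have i := h.fin.mono_set hU
  refine Integrable.mono' i (m.norm.pow 2) (ae_of_all _ fun y => ?_)
  rw [Real.norm_eq_abs, abs_of_nonneg (by positivity)]
  have : 0 ≤ ‖gr v y‖ ^ 2 := by positivity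
  linarith

lemma Helm.memg {k : ℝ} {Ω U : Set E} {v : E → ℂ} (hΩ : IsOpen Ω) (h : Helm k Ω v) (hU : U ⊆ Ω)
    (mU : MeasurableSet U) : MemLp (gr v) 2 (volume.restrict U) := by
  have m : AEStronglyMeasurable (gr v) (volume.restrict U) :=
    ((measurable_gr hΩ h.smooth).mono hU).aestronglyMeasurable mU
  rw [memLp_two_iff_integrable_sq_norm m]
  have i := h.fin.mono_set hU
  refine Integrable.mono' i (m.norm.pow 2) (ae_of_all _ fun y => ?_)
  rw [Real.norm_eq_abs, abs_of_nonneg (by positivity)]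
  have : 0 ≤ ‖v y‖ ^ 2 := by positivity
  linarith

lemma Tst.memv {Ω U : Set E} {f : E → ℂ} (h : Tst Ω f) : MemLp f 2 (volume.restrict U) :=
  (h.smooth.continuous.memLp_of_hasCompactSupport h.cpt).restrict U

lemma gr_cont {f : E → ℂ} (h : ContDiff ℝ ∞ f) : Continuous (gr f) := by
  have := measurable_gr isOpen_univ (contDiffOn_univ.2 h)
  exact continuousOn_univ.1 this

lemma gr_cpt {f : E → ℂ} (h : HasCompactSupport f) : HasCompactSupport (gr f) := by
  have h1 : HasCompactSupport (fderiv ℝ f) := h.fderiv ℝ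
  refine h1.mono fun x hx => ?_
  rw [Function.mem_support] at *
  intro h0
  apply hx
  simp only [gr, pd, h0]
  ext j
  simp

lemma Tst.memg {Ω U : Set E} {f : E → ℂ} (h : Tst Ω f) : MemLp (gr f) 2 (volume.restrict U) :=
  ((gr_cont h.smooth).memLp_of_hasCompactSupport (gr_cpt h.cpt)).restrict U

lemma form_int {k : ℝ} {U : Set E} {p q : E → ℂ} {gp : E → C3}
    (hp : MemLp p 2 (volume.restrict U)) (hgp : MemLp gp 2 (volume.restrict U))
    (hq : MemLp q 2 (volume.restrict U)) (hgq : MemLp (gr q) 2 (volume.restrict U)) :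
    Integrable (fun y => ⟪gr q y, gp y⟫_ℂ - ((k ^ 2 : ℝ) : ℂ) * ((starRingEnd ℂ) (q y) * p y))
      (volume.restrict U) := by
  have h1 : Integrable (fun y => ⟪gr q y, gp y⟫_ℂ) (volume.restrict U) := by
    have i0 : Integrable (fun y => ‖gr q y‖ ^ 2 + ‖gp y‖ ^ 2) (volume.restrict U) :=
      ((memLp_two_iff_integrable_sq_norm hgq.1).1 hgq).add
        ((memLp_two_iff_integrable_sq_norm hgp.1).1 hgp)
    refine i0.mono' (hgq.1.inner hgp.1) (ae_of_all _ fun y => ?_)
    have := norm_inner_le_norm (𝕜 := ℂ) (gr q y) (gp y)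
    nlinarith [sq_nonneg (‖gr q y‖ - ‖gp y‖), sq_nonneg ‖gr q y‖, sq_nonneg ‖gp y‖]
  have h2 : Integrable (fun y => (starRingEnd ℂ) (q y) * p y) (volume.restrict U) := by
    have i0 : Integrable (fun y => ‖q y‖ ^ 2 + ‖p y‖ ^ 2) (volume.restrict U) :=
      ((memLp_two_iff_integrable_sq_norm hq.1).1 hq).add
        ((memLp_two_iff_integrable_sq_norm hp.1).1 hp)
    refine i0.mono' ((Complex.continuous_conj.comp_aestronglyMeasurable hq.1).mul hp.1)
      (ae_of_all _ fun y => ?_)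
    rw [norm_mul, RCLike.norm_conj]
    nlinarith [sq_nonneg (‖q y‖ - ‖p y‖), sq_nonneg ‖q y‖, sq_nonneg ‖p y‖]
  exact h1.sub (h2.const_mul _)

lemma form_sub {k : ℝ} {U : Set E} {p p' q : E → ℂ} {gp gp' : E → C3}
    (hp : MemLp p 2 (volume.restrict U)) (hgp : MemLp gp 2 (volume.restrict U))
    (hp' : MemLp p' 2 (volume.restrict U)) (hgp' : MemLp gp' 2 (volume.restrict U))
    (hq : MemLp q 2 (volume.restrict U)) (hgq : MemLp (gr q) 2 (volume.restrict U)) :
    form k U (fun y => p y - p' y) (fun y => gp y - gp' y) q = form k U p gp q - form k U p' gp' q := by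
  rw [form, form, form, ← integral_sub (form_int hp hgp hq hgq) (form_int hp' hgp' hq hgq)]
  refine integral_congr_ae (ae_of_all _ fun y => ?_)
  simp only [inner_sub_right]
  ring

lemma Gx_smooth {k : ℝ} {G : E → ℂ} (hG : Sing k G) (x : E) :
    ContDiffOn ℝ ∞ (fun y => G (y - x)) {x}ᶜ := by
  refine hG.smooth.comp (contDiff_id.sub contDiff_const).contDiffOn fun y hy => ?_
  simp only [mem_compl_iff, mem_singleton_iff] at hy ⊢
  exact sub_ne_zero.2 hy

/-- the energy of a needle sequence is bounded away from the needle -/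
lemma locbd {k : ℝ} {Ω K : Set E} {G : E → ℂ} {x : E} {σ : ℝ → E} {v : ℕ → E → ℂ}
    (oΩ : IsOpen Ω) (hG : Sing k G) (hσ : Needle Ω x σ) (hv : NSeq k Ω G x σ v)
    (hK : IsCompact K) (hKΩ : K ⊆ Ω \ σ '' Icc 0 1) :
    ∀ n, H1 K (v n) ≤ 2 * H1 K (fun y => v n y - G (y - x)) + 2 * H1 K (fun y => G (y - x)) := by
  intro n
  have xS : x ∈ σ '' Icc 0 1 := ⟨1, ⟨zero_le_one, le_rfl⟩, hσ.fin⟩
  have Kx : K ⊆ {x}ᶜ := fun y hy h => (hKΩ hy).2 (by rw [mem_singleton_iff.1 h]; exact xS)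
  have KΩ : K ⊆ Ω := fun y hy => (hKΩ hy).1
  obtain ⟨U, hU⟩ : ∃ U : Set E, U = Ω \ {x} := ⟨_, rfl⟩
  have oU : IsOpen U := by rw [hU]; exact oΩ.sdiff isClosed_singleton
  have KU : K ⊆ U := fun y hy => by rw [hU]; exact ⟨KΩ hy, Kx hy⟩
  have s1 : ContDiffOn ℝ ∞ (v n) U := (hv.sol n).smooth.mono (by rw [hU]; exact sdiff_subset)
  have s2 : ContDiffOn ℝ ∞ (fun y => G (y - x)) U :=
    (Gx_smooth hG x).mono (by rw [hU]; exact fun y hy => hy.2)
  have s3 : ContDiffOn ℝ ∞ (fun y => v n y - G (y - x)) U := s1.sub s2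
  have int : ∀ f : E → ℂ, ContDiffOn ℝ ∞ f U →
      IntegrableOn (fun y => ‖f y‖ ^ 2 + ‖gr f y‖ ^ 2) K := fun f hf =>
    (((hf.continuousOn.mono KU).norm.pow 2).add
      (((measurable_gr oU hf).mono KU).norm.pow 2)).integrableOn_compact hK
  rw [H1, H1, H1, ← integral_const_mul, ← integral_const_mul,
    ← integral_add ((int _ s3).const_mul 2) ((int _ s2).const_mul 2)]
  refine setIntegral_mono_on (int _ s1) (((int _ s3).const_mul 2).add ((int _ s2).const_mul 2))
    hK.measurableSet fun y hy => ?_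
  have d1 : DifferentiableAt ℝ (v n) y :=
    (s1.contDiffAt (oU.mem_nhds (KU hy))).differentiableAt (by simp)
  have d2 : DifferentiableAt ℝ (fun y => G (y - x)) y :=
    (s2.contDiffAt (oU.mem_nhds (KU hy))).differentiableAt (by simp)
  have e : gr (fun y => v n y - G (y - x)) y = gr (v n) y - gr (fun y => G (y - x)) y := by
    simp only [gr]
    ext j
    show pd j (fun y => v n y - G (y - x)) y = pd j (v n) y - pd j (fun y => G (y - x)) y
    simp only [pd]
    rw [show (fun y => v n y - G (y - x)) = v n - fun y => G (y - x) from rfl, fderiv_sub d1 d2]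
    rfl
  have par : ∀ {F : Type} [NormedAddCommGroup F] (a b : F), ‖a‖ ^ 2 ≤ 2 * ‖a - b‖ ^ 2 + 2 * ‖b‖ ^ 2 := by
    intro F _ a b
    have h1 : ‖a‖ ≤ ‖a - b‖ + ‖b‖ := by
      calc ‖a‖ = ‖(a - b) + b‖ := by rw [sub_add_cancel]
        _ ≤ _ := norm_add_le _ _
    have h2 := norm_nonneg a
    nlinarith [sq_nonneg (‖a - b‖ - ‖b‖)]
  have p1 := par (v n y) (G (y - x))
  have p2 := par (gr (v n) y) (gr (fun y => G (y - x)) y)
  rw [← e] at p2
  linarith

theorem t_MAIN (hID : S_ID) (hTR : S_TR) (hFRED : S_FRED) (hR0 : S_R0) (hBLOW : S_BLOW)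
    (hNULL : S_NULL) : S_MAIN := by
  intro k Ω D G x σ v u g hk oΩ bΩ sD cD hne hG xΩ hσ hx hv hu
  obtain ⟨cS, nS⟩ := hNULL.2 Ω x σ hσ
  obtain ⟨S, hS⟩ : ∃ S : Set E, S = σ '' Icc 0 1 := ⟨_, rfl⟩
  rw [← hS] at cS nS
  obtain ⟨X, hX⟩ : ∃ X : Set E, X = Ω \ closure D := ⟨_, rfl⟩
  have oX : IsOpen X := by rw [hX]; exact oΩ.sdiff isClosed_closure
  have mX : MeasurableSet X := oX.measurableSet
  have XΩ : X ⊆ Ω := by rw [hX]; exact sdiff_subset
  have oD : IsOpen D := by
    obtain ⟨ρ, h1, h2, -⟩ := sD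
    rw [h2]; exact isOpen_lt h1.continuous continuous_const
  have DΩ : D ⊆ Ω := subset_closure.trans cD
  have tN := hBLOW k Ω D G x σ v hk oΩ bΩ sD cD hG xΩ hσ hx hv
  -- the indicator
  have id := fun n => hID k Ω D (v n) (u n) (g n) oΩ bΩ sD cD (hv.sol n) (hu n)
  refine ⟨fun n => by rw [id n]; exact Complex.ofReal_im _, ?_⟩
  -- normalisation
  obtain ⟨N, hN⟩ : ∃ N : ℕ → ℝ, ∀ n, N n = max (H1 D (v n)) 1 := ⟨_, fun _ => rfl⟩
  have N1 : ∀ n, 1 ≤ N n := fun n => by rw [hN]; exact le_max_right _ _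
  have N0 : ∀ n, 0 < N n := fun n => by linarith [N1 n]
  have tN' : Tendsto N atTop atTop := by
    refine tendsto_atTop_mono (fun n => ?_) tN
    rw [hN]; exact le_max_left _ _
  obtain ⟨c, hc⟩ : ∃ c : ℕ → ℝ, ∀ n, c n = 1 / √(N n) := ⟨_, fun _ => rfl⟩
  have c0 : ∀ n, 0 < c n := fun n => by rw [hc]; exact div_pos one_pos (Real.sqrt_pos.2 (N0 n))
  have cne : ∀ n, c n ≠ 0 := fun n => (c0 n).ne'
  have c2 : ∀ n, c n ^ 2 = 1 / N n := fun n => by
    rw [hc, div_pow, one_pow, Real.sq_sqrt (N0 n).le]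
  have tc : Tendsto (fun n => c n ^ 2) atTop (𝓝 0) := by
    have : Tendsto (fun n => 1 / N n) atTop (𝓝 0) := by
      simp only [one_div]
      exact tN'.inv_tendsto_atTop
    exact this.congr fun n => (c2 n).symm
  obtain ⟨V, hV⟩ : ∃ V : ℕ → E → ℂ, ∀ n, V n = c n • v n := ⟨_, fun _ => rfl⟩
  have VH : ∀ n, Helm k Ω (V n) := fun n => by rw [hV]; exact (hv.sol n).smul (cne n)
  have V1 : ∀ n, H1 D (V n) ≤ 1 := fun n => by
    rw [hV, H1_smul (cne n), c2, one_div, inv_mul_le_iff₀ (N0 n), mul_one, hN]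
    exact le_max_left _ _
  -- local convergence off the needle
  have loc : ∀ K, IsCompact K → K ⊆ D \ S → Tendsto (fun n => H1 K (V n)) atTop (𝓝 0) := by
    intro K hK hKD
    have hKΩ : K ⊆ Ω \ σ '' Icc 0 1 := by
      rw [← hS]; exact fun y hy => ⟨DΩ (hKD hy).1, (hKD hy).2⟩
    have t1 := (((hv.conv K hK hKΩ).const_mul 2).add_const
      (2 * H1 K (fun y => G (y - x)))).mul tc
    rw [mul_zero] at t1
    refine squeeze_zero (fun n => integral_nonneg fun _ => by positivity) (fun n => ?_) t1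
    rw [hV, H1_smul (cne n), mul_comm]
    exact mul_le_mul_of_nonneg_right (locbd oΩ hG hσ hv hK hKΩ n) (sq_nonneg _)
  have loc2 : ∀ K, IsCompact K → K ⊆ D \ S →
      Tendsto (fun n => ∫ y in K, ‖V n y‖ ^ 2) atTop (𝓝 0) := by
    intro K hK hKD
    refine squeeze_zero (fun n => integral_nonneg fun _ => by positivity) (fun n => ?_)
      (loc K hK hKD)
    have hKΩ : K ⊆ Ω := hKD.trans (sdiff_subset.trans DΩ)
    have i2 := (VH n).fin.mono_set hKΩ
    refine integral_mono_of_nonneg (ae_of_all _ fun _ => by positivity) i2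
      (ae_of_all _ fun y => ?_)
    have : 0 ≤ ‖gr (V n) y‖ ^ 2 := by positivity
    simp only
    linarith
  have tD : Tendsto (fun n => ∫ y in D, ‖V n y‖ ^ 2) atTop (𝓝 0) :=
    hR0 Ω D S V oΩ bΩ sD cD cS nS (fun n => ((VH n).smooth.of_le (by simp))) V1 loc2
  obtain ⟨⟨C, hC⟩, tr⟩ := hTR k Ω D oΩ bΩ sD cD
  have tr' := tr S V cS nS VH V1 loc
  -- the exterior part
  obtain ⟨w, hw⟩ : ∃ w : ℕ → E → ℂ, ∀ n, w n = c n • fun y => u n y - v n y := ⟨_, fun _ => rfl⟩
  obtain ⟨gw, hgw⟩ : ∃ gw : ℕ → E → C3, ∀ n, gw n = c n • fun y => g n y - gr (v n) y :=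
    ⟨_, fun _ => rfl⟩
  have wV : ∀ n, Van Ω D (w n) (gw n) := fun n => by
    rw [hw, hgw]; exact (hu n).van.smul (cne n)
  have fw : ∀ n f, Tst Ω f → form k (Ω \ closure D) (w n) (gw n) f =
      -form k (Ω \ closure D) (V n) (gr (V n)) f := by
    intro n f hf
    have e1 : form k X (fun y => u n y - v n y) (fun y => g n y - gr (v n) y) f =
        form k X (u n) (g n) f - form k X (v n) (gr (v n)) f := by
      have v2 : MemLp (v n) 2 (volume.restrict X) := (hv.sol n).memv XΩ mX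
      have gv2 : MemLp (gr (v n)) 2 (volume.restrict X) := (hv.sol n).memg oΩ XΩ mX
      have u2 : MemLp (u n) 2 (volume.restrict X) := by
        have := (hu n).van.w2
        rw [← hX] at this
        refine (this.add v2).ae_eq (ae_of_all _ fun y => ?_)
        simp
      have gu2 : MemLp (g n) 2 (volume.restrict X) := by
        have := (hu n).van.g2
        rw [← hX] at this
        refine (this.add gv2).ae_eq (ae_of_all _ fun y => ?_)
        simp
      exact form_sub u2 gu2 v2 gv2 hf.memv hf.memg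
    rw [hX] at e1
    rw [(hu n).eq f hf, zero_sub] at e1
    have e2 : gr (V n) = c n • gr (v n) := by
      funext y; rw [hV, gr_smul (cne n)]; rfl
    rw [hw, hgw, form_smul, e1, e2, hV, form_smul]
    ring
  have tw : Tendsto (fun n => ∫ y in Ω \ closure D, ‖w n y‖ ^ 2) atTop (𝓝 0) := by
    refine hFRED k |C| Ω D w gw oΩ bΩ sD cD hne wV (fun n f hf => ?_) (fun f hf => ?_)
    · rw [fw n f hf, norm_neg]
      refine (hC (V n) (VH n) f hf).trans ?_
      have a1 : √(H1 D (V n)) ≤ 1 := Real.sqrt_le_one.2 (V1 n)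
      have a2 : C * √(H1 D (V n)) ≤ |C| := by
        calc C * √(H1 D (V n)) ≤ |C| * √(H1 D (V n)) :=
              mul_le_mul_of_nonneg_right (le_abs_self C) (Real.sqrt_nonneg _)
          _ ≤ |C| * 1 := mul_le_mul_of_nonneg_left a1 (abs_nonneg _)
          _ = |C| := mul_one _
      exact mul_le_mul_of_nonneg_right a2 (Real.sqrt_nonneg _)
    · have := (tr' f hf).neg
      rw [neg_zero] at this
      exact this.congr fun n => (fw n f hf).symm
  -- the lower bound
  have low : ∀ n, H1 D (v n) - (1 + k ^ 2) * (N n * ∫ y in D, ‖V n y‖ ^ 2) -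
      k ^ 2 * (N n * ∫ y in Ω \ closure D, ‖w n y‖ ^ 2) ≤ (Ind k Ω D (v n) (u n) (g n)).re := by
    intro n
    have e1 : ∀ y, ‖V n y‖ ^ 2 = ‖v n y‖ ^ 2 / N n := fun y => by
      rw [hV, Pi.smul_apply, norm_smul, mul_pow, Real.norm_eq_abs, sq_abs, c2]; ring
    have e2 : ∀ y, ‖w n y‖ ^ 2 = ‖u n y - v n y‖ ^ 2 / N n := fun y => by
      rw [hw, Pi.smul_apply, norm_smul, mul_pow, Real.norm_eq_abs, sq_abs, c2]; ring
    have e3 : N n * ∫ y in D, ‖V n y‖ ^ 2 = ∫ y in D, ‖v n y‖ ^ 2 := by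
      rw [← integral_const_mul]
      refine integral_congr_ae (ae_of_all _ fun y => ?_)
      simp only
      rw [e1, mul_div_cancel₀ _ (N0 n).ne']
    have e4 : N n * ∫ y in Ω \ closure D, ‖w n y‖ ^ 2 =
        ∫ y in Ω \ closure D, ‖u n y - v n y‖ ^ 2 := by
      rw [← integral_const_mul]
      refine integral_congr_ae (ae_of_all _ fun y => ?_)
      simp only
      rw [e2, mul_div_cancel₀ _ (N0 n).ne']
    rw [id n, Complex.ofReal_re, e3, e4]
    have v2 := ((hv.sol n).memv DΩ oD.measurableSet)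
    have gv2 := ((hv.sol n).memg oΩ DΩ oD.measurableSet)
    have iv := (memLp_two_iff_integrable_sq_norm v2.1).1 v2
    have ig := (memLp_two_iff_integrable_sq_norm gv2.1).1 gv2
    have w2 := (hu n).van.w2
    have gw2 := (hu n).van.g2
    have iw := (memLp_two_iff_integrable_sq_norm w2.1).1 w2
    have igw := (memLp_two_iff_integrable_sq_norm gw2.1).1 gw2
    rw [H1, integral_add iv ig, integral_sub ig (iv.const_mul _), integral_const_mul,
      integral_sub igw (iw.const_mul _), integral_const_mul]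
    have p : 0 ≤ ∫ y in Ω \ closure D, ‖g n y - gr (v n) y‖ ^ 2 :=
      integral_nonneg fun _ => by positivity
    linarith
  have tz : Tendsto (fun n => (1 + k ^ 2) * (∫ y in D, ‖V n y‖ ^ 2) +
      k ^ 2 * ∫ y in Ω \ closure D, ‖w n y‖ ^ 2) atTop (𝓝 0) := by
    have := (tD.const_mul (1 + k ^ 2)).add (tw.const_mul (k ^ 2))
    simpa using this
  have ev : ∀ᶠ n in atTop, N n / 2 ≤ (Ind k Ω D (v n) (u n) (g n)).re := by
    filter_upwards [tN.eventually_ge_atTop 1, tz.eventually_le_const (by norm_num : (0 : ℝ) < 1 / 2)]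
      with n h1 h2
    have h3 : N n = H1 D (v n) := by rw [hN]; exact max_eq_left h1
    have h4 := low n
    rw [← h3] at h4
    have h5 := mul_le_mul_of_nonneg_left h2 (N0 n).le
    linarith
  exact tendsto_atTop_mono' _ ev (tN'.atTop_div_const two_pos)

end

end Pool.Agent.E8helper19.PM
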