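import Mathlib

/-!
# Project PM: exact statements of the pieces (MP_a3c92e_an)

Blow-up of the indicator sequence of the probe method without a smallness condition on the
frequency. Nothing is proved here.
-/

set_option autoImplicit false
open MeasureTheory Filter Topology Set
open scoped ContDiff ENNReal Real InnerProductSpace

namespace Pool.Agent.E8helper19.PM

noncomputable section

/-- `ℝ³` -/
abbrev E : Type := EuclideanSpace ℝ (Fin 3)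

/-- `ℂ³` -/
abbrev C3 : Type := EuclideanSpace ℂ (Fin 3)

/-- the partial derivative `∂_j f` -/
def pd (j : Fin 3) (f : E → ℂ) (y : E) : ℂ := fderiv ℝ f y (EuclideanSpace.single j 1)

/-- the gradient `∇f` -/
def gr (f : E → ℂ) (y : E) : C3 := WithLp.toLp 2 fun j => pd j f y

/-- the Laplacian `Δf` -/
def lap (f : E → ℂ) (y : E) : ℂ := ∑ j : Fin 3, pd j (pd j f) y

/-- open sets with smooth boundary (given by a defining function) -/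
def SmoothSet (D : Set E) : Prop :=
  ∃ ρ : E → ℝ, ContDiff ℝ ∞ ρ ∧ D = {y | ρ y < 0} ∧ ∀ y, ρ y = 0 → fderiv ℝ ρ y ≠ 0

/-- the square of the norm of `H¹(U)` -/
def H1 (U : Set E) (f : E → ℂ) : ℝ := ∫ y in U, (‖f y‖ ^ 2 + ‖gr f y‖ ^ 2)

/-- test functions: `f ∈ C_c^∞(Ω)` -/
structure Tst (Ω : Set E) (f : E → ℂ) : Prop where
  smooth : ContDiff ℝ ∞ f
  cpt : HasCompactSupport f
  supp : tsupport f ⊆ Ω

/-- Lipschitz functions with compact support in `Ω` -/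
structure LTst (Ω : Set E) (f : E → ℂ) : Prop where
  lip : ∃ K, LipschitzWith K f
  cpt : HasCompactSupport f
  supp : tsupport f ⊆ Ω

/-- `v ∈ H¹(Ω)` is a solution of `Δv + k²v = 0` in `Ω` -/
structure Helm (k : ℝ) (Ω : Set E) (v : E → ℂ) : Prop where
  smooth : ContDiffOn ℝ ∞ v Ω
  eq : ∀ y ∈ Ω, lap v y = -((k ^ 2 : ℝ) : ℂ) * v y
  fin : IntegrableOn (fun y => ‖v y‖ ^ 2 + ‖gr v y‖ ^ 2) Ω

/-- `∫_U (∇p·∇q̄ - k² p q̄)`, where `gp` is the gradient of `p` -/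
def form (k : ℝ) (U : Set E) (p : E → ℂ) (gp : E → C3) (q : E → ℂ) : ℂ :=
  ∫ y in U, (⟪gr q y, gp y⟫_ℂ - ((k ^ 2 : ℝ) : ℂ) * ((starRingEnd ℂ) (q y) * p y))

/-- `w ∈ H¹(Ω∖D̄)`, with gradient `g`, and `w = 0` on `∂Ω`: a limit in `H¹(Ω∖D̄)` of functions
of `C_c^∞(Ω)` -/
structure Van (Ω D : Set E) (w : E → ℂ) (g : E → C3) : Prop where
  w2 : MemLp w 2 (volume.restrict (Ω \ closure D))
  g2 : MemLp g 2 (volume.restrict (Ω \ closure D))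
  lim : ∀ ε : ℝ, 0 < ε → ∃ f : E → ℂ, Tst Ω f ∧
    ∫ y in Ω \ closure D, (‖w y - f y‖ ^ 2 + ‖g y - gr f y‖ ^ 2) < ε

/-- `u ∈ H¹(Ω∖D̄)`, with gradient `gu`, is the weak solution of `Δu + k²u = 0` in `Ω∖D̄`,
`∂_ν u = 0` on `∂D`, `u = v` on `∂Ω` -/
structure WSol (k : ℝ) (Ω D : Set E) (v u : E → ℂ) (gu : E → C3) : Prop where
  van : Van Ω D (fun y => u y - v y) (fun y => gu y - gr v y)
  eq : ∀ f, Tst Ω f → form k (Ω \ closure D) u gu f = 0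

/-- `k²` is not an eigenvalue of `-Δ` in `Ω∖D̄` with Dirichlet condition on `∂Ω` and Neumann
condition on `∂D` -/
def NonEig (k : ℝ) (Ω D : Set E) : Prop :=
  ∀ (w : E → ℂ) (g : E → C3), Van Ω D w g →
    (∀ f, Tst Ω f → form k (Ω \ closure D) w g f = 0) →
    ∀ᵐ y ∂(volume.restrict (Ω \ closure D)), w y = 0

/-- `∫_{∂Ω} (∂_ν v - Λ_D v) v̄ dS` -/
def Ind (k : ℝ) (Ω D : Set E) (v u : E → ℂ) (gu : E → C3) : ℂ :=
  form k Ω v (gr v) v - form k (Ω \ closure D) u gu v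

/-- the finite cone with vertex `z`, axis `a`, radius `r` and opening `πα` -/
def Cone (z a : E) (r α : ℝ) : Set E :=
  {y | ‖y - z‖ < r ∧ ‖y - z‖ * Real.cos (π * α / 2) < ⟪y - z, a⟫_ℝ}

/-- the singular solution -/
structure Sing (k : ℝ) (G : E → ℂ) : Prop where
  smooth : ContDiffOn ℝ ∞ G {0}ᶜ
  eq : ∀ y, y ≠ 0 → lap G y = -((k ^ 2 : ℝ) : ℂ) * G y
  cone : ∀ (a : E) (r α : ℝ), ‖a‖ = 1 → 0 < r → 0 < α → α < 1 →
    ¬ IntegrableOn (fun y => ‖gr G y‖ ^ 2) (Cone 0 a r α)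

/-- needles: injective piecewise linear curves in `Ω` from `∂Ω` to `x` -/
structure Needle (Ω : Set E) (x : E) (σ : ℝ → E) : Prop where
  cont : ContinuousOn σ (Icc 0 1)
  inj : InjOn σ (Icc 0 1)
  start : σ 0 ∈ frontier Ω
  fin : σ 1 = x
  mem : ∀ t, 0 < t → t < 1 → σ t ∈ Ω
  pl : ∃ (m : ℕ) (t : ℕ → ℝ) (p q : ℕ → E), t 0 = 0 ∧ t m = 1 ∧
    ∀ i < m, t i ≤ t (i + 1) ∧ ∀ s ∈ Icc (t i) (t (i + 1)), σ s = p i + s • q i

/-- needle sequences -/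
structure NSeq (k : ℝ) (Ω : Set E) (G : E → ℂ) (x : E) (σ : ℝ → E) (v : ℕ → E → ℂ) : Prop where
  sol : ∀ n, Helm k Ω (v n)
  conv : ∀ K, IsCompact K → K ⊆ Ω \ σ '' Icc 0 1 →
    Tendsto (fun n => H1 K (fun y => v n y - G (y - x))) atTop (𝓝 0)

/-! ## The pieces -/

/-- PM1. Extension into `D`. -/
def S_EXT : Prop :=
  ∀ Ω D : Set E, IsOpen Ω → Bornology.IsBounded Ω → SmoothSet D → closure D ⊆ Ω →
    ∃ C : ℝ, ∀ f, Tst Ω f → ∃ Φ, LTst Ω Φ ∧ (∀ y, y ∉ D → Φ y = f y) ∧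
      H1 D Φ ≤ C * H1 (Ω \ closure D) f

/-- PM2. Green's identity with a Lipschitz test function. -/
def S_GRN : Prop :=
  ∀ (k : ℝ) (Ω : Set E) (v Φ : E → ℂ), IsOpen Ω → ContDiffOn ℝ ∞ v Ω →
    (∀ y ∈ Ω, lap v y = -((k ^ 2 : ℝ) : ℂ) * v y) → LTst Ω Φ → form k Ω v (gr v) Φ = 0

/-- PM3. Null sets. -/
def S_NULL : Prop :=
  (∀ D : Set E, SmoothSet D → volume (frontier D) = 0) ∧
  ∀ (Ω : Set E) (x : E) (σ : ℝ → E), Needle Ω x σ →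
    IsCompact (σ '' Icc 0 1) ∧ volume (σ '' Icc 0 1) = 0

/-- PM4. No concentration at `∂D`, from inside and from outside. -/
def S_NC : Prop :=
  ∀ (Ω D : Set E) (ε : ℝ), IsOpen Ω → Bornology.IsBounded Ω → SmoothSet D → closure D ⊆ Ω →
    0 < ε →
    (∃ K, IsCompact K ∧ K ⊆ D ∧ ∀ f : E → ℂ, ContDiffOn ℝ 1 f Ω →
      ∫ y in D \ K, ‖f y‖ ^ 2 ≤ ε * H1 D f) ∧
    ∃ U, IsOpen U ∧ closure D ⊆ U ∧ ∀ f, Tst Ω f →
      ∫ y in U \ closure D, ‖f y‖ ^ 2 ≤ ε * H1 (Ω \ closure D) f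

/-- PM5. Strong convergence to zero in `L²(D)`. -/
def S_R0 : Prop :=
  ∀ (Ω D S : Set E) (v : ℕ → E → ℂ), IsOpen Ω → Bornology.IsBounded Ω → SmoothSet D →
    closure D ⊆ Ω → IsCompact S → volume S = 0 → (∀ n, ContDiffOn ℝ 1 (v n) Ω) →
    (∀ n, H1 D (v n) ≤ 1) →
    (∀ K, IsCompact K → K ⊆ D \ S → Tendsto (fun n => ∫ y in K, ‖v n y‖ ^ 2) atTop (𝓝 0)) →
    Tendsto (fun n => ∫ y in D, ‖v n y‖ ^ 2) atTop (𝓝 0)

/-- PM6. Rellich's theorem for test functions. -/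
def S_RB : Prop :=
  ∀ (Ω : Set E) (M : ℝ) (f : ℕ → E → ℂ), Bornology.IsBounded Ω → (∀ n, Tst Ω (f n)) →
    (∀ n, H1 univ (f n) ≤ M) →
    ∃ τ : ℕ → ℕ, StrictMono τ ∧ ∀ ε : ℝ, 0 < ε → ∃ N, ∀ m ≥ N, ∀ n ≥ N,
      ∫ y, ‖f (τ m) y - f (τ n) y‖ ^ 2 ≤ ε

/-- PM7. Rellich's theorem in `Ω∖D̄`. -/
def S_RO : Prop :=
  ∀ (Ω D : Set E) (M : ℝ) (f : ℕ → E → ℂ), IsOpen Ω → Bornology.IsBounded Ω → SmoothSet D →
    closure D ⊆ Ω → (∀ n, Tst Ω (f n)) → (∀ n, H1 (Ω \ closure D) (f n) ≤ M) →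
    ∃ τ : ℕ → ℕ, StrictMono τ ∧ ∀ ε : ℝ, 0 < ε → ∃ N, ∀ m ≥ N, ∀ n ≥ N,
      ∫ y in Ω \ closure D, ‖f (τ m) y - f (τ n) y‖ ^ 2 ≤ ε

/-- PM8. Fredholm's alternative, for weakly null right hand sides. -/
def S_FRED : Prop :=
  ∀ (k C : ℝ) (Ω D : Set E) (w : ℕ → E → ℂ) (g : ℕ → E → C3), IsOpen Ω →
    Bornology.IsBounded Ω → SmoothSet D → closure D ⊆ Ω → NonEig k Ω D →
    (∀ n, Van Ω D (w n) (g n)) →
    (∀ n f, Tst Ω f → ‖form k (Ω \ closure D) (w n) (g n) f‖ ≤ C * √(H1 (Ω \ closure D) f)) →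
    (∀ f, Tst Ω f → Tendsto (fun n => form k (Ω \ closure D) (w n) (g n) f) atTop (𝓝 0)) →
    Tendsto (fun n => ∫ y in Ω \ closure D, ‖w n y‖ ^ 2) atTop (𝓝 0)

/-- PM9. The Neumann data of a solution, seen from outside. -/
def S_TR : Prop :=
  ∀ (k : ℝ) (Ω D : Set E), IsOpen Ω → Bornology.IsBounded Ω → SmoothSet D → closure D ⊆ Ω →
    (∃ C : ℝ, ∀ v, Helm k Ω v → ∀ f, Tst Ω f →
      ‖form k (Ω \ closure D) v (gr v) f‖ ≤ C * √(H1 D v) * √(H1 (Ω \ closure D) f)) ∧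
    ∀ (S : Set E) (v : ℕ → E → ℂ), IsCompact S → volume S = 0 → (∀ n, Helm k Ω (v n)) →
      (∀ n, H1 D (v n) ≤ 1) →
      (∀ K, IsCompact K → K ⊆ D \ S → Tendsto (fun n => H1 K (v n)) atTop (𝓝 0)) →
      ∀ f, Tst Ω f →
        Tendsto (fun n => form k (Ω \ closure D) (v n) (gr (v n)) f) atTop (𝓝 0)

/-- PM10. An a priori inequality. -/
def S_APR : Prop :=
  ∀ (k R : ℝ), 0 < k → 0 < R → ∃ C : ℝ, ∀ f, Tst (Metric.ball 0 R) f →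
    H1 univ f ≤ C * ∫ y, ‖lap f y + ((k ^ 2 : ℝ) : ℂ) * f y‖ ^ 2

/-- PM11. Caccioppoli's inequality. -/
def S_CAC : Prop :=
  ∀ (k : ℝ) (U K : Set E), IsOpen U → IsCompact K → K ⊆ U → ∃ C : ℝ, ∀ v : E → ℂ,
    ContDiffOn ℝ ∞ v U → (∀ y ∈ U, lap v y = -((k ^ 2 : ℝ) : ℂ) * v y) →
    IntegrableOn (fun y => ‖v y‖ ^ 2) U →
    ∫ y in K, ‖gr v y‖ ^ 2 ≤ C * ∫ y in U, ‖v y‖ ^ 2

/-- PM12. The energy of a needle sequence is unbounded in every cone with vertex `x`. -/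
def S_FAT : Prop :=
  ∀ (k : ℝ) (Ω : Set E) (G : E → ℂ) (x : E) (σ : ℝ → E) (v : ℕ → E → ℂ) (a : E) (r α C : ℝ),
    IsOpen Ω → Sing k G → Needle Ω x σ → NSeq k Ω G x σ v → ‖a‖ = 1 → 0 < r → 0 < α →
    α < 1 → Cone x a r α ⊆ Ω → (∀ n, H1 (Cone x a r α) (v n) ≤ C) → False

/-- PM13. Cones in a set with smooth boundary. -/
def S_CONE : Prop :=
  ∀ (D : Set E) (x : E), SmoothSet D → x ∈ closure D →
    ∃ (a : E) (r α : ℝ), ‖a‖ = 1 ∧ 0 < r ∧ 0 < α ∧ α < 1 ∧ Cone x a r α ⊆ D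

/-- PM14. Bounded energy in `D` forces convergence near a point of the needle in `D`. -/
def S_HIT : Prop :=
  ∀ (k : ℝ) (Ω D : Set E) (G : E → ℂ) (x : E) (σ : ℝ → E) (v : ℕ → E → ℂ) (C : ℝ) (p : E),
    IsOpen Ω → IsOpen D → D ⊆ Ω → Bornology.IsBounded D → Sing k G → Needle Ω x σ →
    NSeq k Ω G x σ v → p ∈ D → p ≠ x → (∀ n, H1 D (v n) ≤ C) →
    ∃ r : ℝ, 0 < r ∧ Metric.closedBall p r ⊆ D ∧ x ∉ Metric.closedBall p r ∧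
      Tendsto (fun n => H1 (Metric.ball p r) (fun y => v n y - G (y - x))) atTop (𝓝 0)

/-- PM15. Convergence near an inner point of the needle bounds the energy near its end. -/
def S_CUT : Prop :=
  ∀ (k : ℝ) (Ω : Set E) (G : E → ℂ) (x : E) (σ : ℝ → E) (v : ℕ → E → ℂ) (t r : ℝ),
    0 < k → IsOpen Ω → Bornology.IsBounded Ω → Sing k G → x ∈ Ω → Needle Ω x σ →
    NSeq k Ω G x σ v → 0 < t → t < 1 → 0 < r → Metric.closedBall (σ t) r ⊆ Ω →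
    x ∉ Metric.closedBall (σ t) r →
    Tendsto (fun n => H1 (Metric.ball (σ t) r) (fun y => v n y - G (y - x))) atTop (𝓝 0) →
    ∃ s C : ℝ, 0 < s ∧ Metric.closedBall x s ⊆ Ω ∧ ∀ n, H1 (Metric.ball x s) (v n) ≤ C

/-- PM16. The indicator as an energy. -/
def S_ID : Prop :=
  ∀ (k : ℝ) (Ω D : Set E) (v u : E → ℂ) (gu : E → C3), IsOpen Ω → Bornology.IsBounded Ω →
    SmoothSet D → closure D ⊆ Ω → Helm k Ω v → WSol k Ω D v u gu →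
    Ind k Ω D v u gu =
      (((∫ y in D, (‖gr v y‖ ^ 2 - k ^ 2 * ‖v y‖ ^ 2)) +
        ∫ y in Ω \ closure D, (‖gu y - gr v y‖ ^ 2 - k ^ 2 * ‖u y - v y‖ ^ 2) : ℝ) : ℂ)

/-- PM17. Blow-up of the energy in `D`. -/
def S_BLOW : Prop :=
  ∀ (k : ℝ) (Ω D : Set E) (G : E → ℂ) (x : E) (σ : ℝ → E) (v : ℕ → E → ℂ),
    0 < k → IsOpen Ω → Bornology.IsBounded Ω → SmoothSet D → closure D ⊆ Ω → Sing k G →
    x ∈ Ω → Needle Ω x σ → (x ∈ closure D ∨ (σ '' Icc 0 1 ∩ D).Nonempty) →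
    NSeq k Ω G x σ v → Tendsto (fun n => H1 D (v n)) atTop atTop

/-- PM18. The theorem. -/
def S_MAIN : Prop :=
  ∀ (k : ℝ) (Ω D : Set E) (G : E → ℂ) (x : E) (σ : ℝ → E) (v u : ℕ → E → ℂ)
    (g : ℕ → E → C3), 0 < k → IsOpen Ω → Bornology.IsBounded Ω → SmoothSet D →
    closure D ⊆ Ω → NonEig k Ω D → Sing k G → x ∈ Ω → Needle Ω x σ →
    (x ∈ closure D ∨ (σ '' Icc 0 1 ∩ D).Nonempty) → NSeq k Ω G x σ v →
    (∀ n, WSol k Ω D (v n) (u n) (g n)) →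
    (∀ n, (Ind k Ω D (v n) (u n) (g n)).im = 0) ∧
      Tendsto (fun n => (Ind k Ω D (v n) (u n) (g n)).re) atTop atTop

end

end Pool.Agent.E8helper19.PM
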